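import Pool.Agent.SGK.Stmts

/-!
# Squad SGK (MP_41797f_co), row SEL (uses GEO, CB, MIR of SGE, and MAP, ROT, CO3)
-/

set_option autoImplicit false

noncomputable section

namespace Pool.Agent.SGK.H61

open Pool.Agent.SGE Pool.Agent.SGK

/-- a list with different first components: the step of a vertex is unique -/
theorem step_uniq {V α : Type} {S : List (V × α)} (h : (S.map Prod.fst).Nodup) {u : V} {x y : α}
    (hx : (u, x) ∈ S) (hy : (u, y) ∈ S) : x = y := by
  have h1 := List.inj_on_of_nodup_map h hx hy rfl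
  exact (Prod.mk.inj h1).2

/-- counting: enough steps of vertices of the graph with the property `p` -/
theorem count {n k : ℕ} {α : Type} (S : List ((Fin n ⊕ Fin 3) × α))
    (hnd : (S.map Prod.fst).Nodup) (p : (Fin n ⊕ Fin 3) × α → Bool)
    (hp : ∀ y ∈ S, p y = true → ∃ v : Fin n, y.1 = Sum.inl v)
    (hk : k ≤ (S.filter p).length) :
    ∃ A : Finset (Fin n), A.card = k ∧ ∀ u ∈ A, ∃ ℓ, (Sum.inl u, ℓ) ∈ S ∧ p (Sum.inl u, ℓ) = true := by
  classical
  have h1 : ((S.filter p).map Prod.fst).Nodup :=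
    hnd.sublist ((List.filter_sublist).map Prod.fst)
  set B : Finset (Fin n) := Finset.univ.filter fun v => ∃ ℓ, (Sum.inl v, ℓ) ∈ S ∧
    p (Sum.inl v, ℓ) = true with hB
  have h2 : ((S.filter p).map Prod.fst).toFinset ⊆ B.image (Sum.inl : Fin n → Fin n ⊕ Fin 3) := by
    intro x hx
    rw [List.mem_toFinset, List.mem_map] at hx
    obtain ⟨y, hy, rfl⟩ := hx
    rw [List.mem_filter] at hy
    obtain ⟨v, hv⟩ := hp y hy.1 hy.2
    rw [Finset.mem_image]
    refine ⟨v, ?_, hv.symm⟩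
    rw [hB, Finset.mem_filter]
    refine ⟨Finset.mem_univ _, y.2, ?_, ?_⟩
    · rw [← hv]
      exact hy.1
    · rw [← hv]
      exact hy.2
  have h3 : k ≤ B.card := by
    calc k ≤ (S.filter p).length := hk
      _ = ((S.filter p).map Prod.fst).length := by rw [List.length_map]
      _ = ((S.filter p).map Prod.fst).toFinset.card := (List.toFinset_card_of_nodup h1).symm
      _ ≤ (B.image (Sum.inl : Fin n → Fin n ⊕ Fin 3)).card := Finset.card_le_card h2
      _ ≤ B.card := Finset.card_image_le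
  obtain ⟨A, hA, hAk⟩ := Finset.exists_subset_card_eq h3
  refine ⟨A, hAk, fun u hu => ?_⟩
  have := hA hu
  rw [hB, Finset.mem_filter] at this
  exact this.2

/-- kind 2: after a rotation -/
theorem kind2 (hCB : CbStmt) (hROT : RotStmt) {V : Type} {a b ω : V} {C : List V}
    {S : List (V × List V)} (h : Can a b C S) (ha : ω ≠ a) (hb : ω ≠ b)
    (hω : ∀ x ∈ S, x.1 ≠ ω) :
    ∃ (C' : List V) (S' : List (V × List V)), Can b ω C' S' ∧
      (∀ v, (∃ ℓ, (v, ℓ) ∈ S) → ∃ ℓ, (v, ℓ) ∈ S') ∧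
      (∀ v ℓ u, (v, ℓ) ∈ S → u ∈ ℓ →
        (∃ ℓ', (v, ℓ') ∈ S' ∧ u ∈ ℓ') ∨ ∃ ℓ', (u, ℓ') ∈ S' ∧ v ∈ ℓ') ∧
      ∀ u ℓ, (u, ℓ) ∈ S → ¬ IsR S u → ℓ.length = 2 → Gd S' u := by
  obtain ⟨S', hS'⟩ := hROT h ha hb hω
  obtain ⟨_, _, _, _, hnd, hst⟩ := hCB h
  refine ⟨_, S', hS'.can, hS'.vx, hS'.ed, ?_⟩
  intro u ℓ hu hR hl
  refine ⟨hS'.vx u ⟨ℓ, hu⟩, ?_, ?_⟩
  · rintro ⟨⟨w, ℓ'⟩, hw, hh⟩
    by_cases hwa : w = a
    · subst hwa
      have h1 := hS'.hda ℓ' hw
      have h2 : b = u := Option.some.inj (h1.symm.trans hh)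
      exact (hst (u, ℓ) hu).2.1 h2.symm
    · obtain ⟨ℓ₀, h0, h1⟩ := hS'.hd w ℓ' hw hwa
      exact hR ⟨(w, ℓ₀), h0, h1.trans hh⟩
  · rintro ⟨⟨w, ℓ'⟩, hw, hh⟩
    rcases hS'.ls w ℓ' u hw hh with h1 | ⟨p, mid, q, hpq, hm⟩
    · exact hω (u, ℓ) hu h1
    · have h2 := step_uniq hnd hu hpq
      rw [h2] at hl
      have h3 : mid.length = 0 := by
        simp only [List.length_cons, List.length_append, List.length_nil] at hl
        omega
      rw [List.length_eq_zero_iff] at h3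
      rw [h3] at hm
      exact absurd hm List.not_mem_nil

/-- SEL from a sequence with enough vertices of kind 2 -/
theorem fin2 (hCB : CbStmt) (hROT : RotStmt) {n : ℕ} (G : SimpleGraph (Fin n)) {a b : W n}
    {C : List (W n)} {S : List (W n × List (W n))} (h : Can a b C S) (ha : (none : W n) ≠ a)
    (hb : (none : W n) ≠ b) (hω : ∀ x ∈ S, x.1 ≠ none) (hv : ∀ v : Fin n, ∃ ℓ, (ev v, ℓ) ∈ S)
    (he : ∀ u w : Fin n, G.Adj u w →
      (∃ ℓ, (ev u, ℓ) ∈ S ∧ ev w ∈ ℓ) ∨ ∃ ℓ, (ev w, ℓ) ∈ S ∧ ev u ∈ ℓ)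
    (A : Finset (Fin n)) (hA : ∀ u ∈ A, ∃ ℓ, (ev u, ℓ) ∈ S ∧ ¬ IsR S (ev u) ∧ ℓ.length = 2) :
    ∃ (a b : W n) (C : List (W n)) (S : List (W n × List (W n))), Can a b C S ∧
      (∀ v : Fin n, ∃ ℓ, (ev v, ℓ) ∈ S) ∧
      (∀ u w : Fin n, G.Adj u w →
        (∃ ℓ, (ev u, ℓ) ∈ S ∧ ev w ∈ ℓ) ∨ ∃ ℓ, (ev w, ℓ) ∈ S ∧ ev u ∈ ℓ) ∧
      ∀ u ∈ A, Gd S (ev u) := by
  obtain ⟨C', S', hc, hvx, hed, hgd⟩ := kind2 hCB hROT h ha hb hω
  refine ⟨b, none, C', S', hc, fun v => hvx _ (hv v), ?_, ?_⟩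
  · intro u w huw
    rcases he u w huw with ⟨ℓ, h1, h2⟩ | ⟨ℓ, h1, h2⟩
    · exact hed _ ℓ _ h1 h2
    · exact (hed _ ℓ _ h1 h2).symm
  · intro u hu
    obtain ⟨ℓ, h1, h2, h3⟩ := hA u hu
    exact hgd _ ℓ h1 h2 h3

theorem isL_map {V W : Type} (e : V → W) (he : Function.Injective e) (S : List (V × List V)) (u : V) :
    IsL (S.map fun y => (e y.1, y.2.map e)) (e u) ↔ IsL S u := by
  constructor
  · rintro ⟨x, hx, hh⟩
    rw [List.mem_map] at hx
    obtain ⟨y, hy, rfl⟩ := hx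
    simp only [List.head?_map, Option.map_eq_some_iff] at hh
    obtain ⟨z, hz, hzu⟩ := hh
    exact ⟨y, hy, by rw [hz, he hzu]⟩
  · rintro ⟨y, hy, hh⟩
    exact ⟨_, List.mem_map_of_mem hy, by simp only [List.head?_map, hh, Option.map_some]⟩

theorem isR_map {V W : Type} (e : V → W) (he : Function.Injective e) (S : List (V × List V)) (u : V) :
    IsR (S.map fun y => (e y.1, y.2.map e)) (e u) ↔ IsR S u := by
  constructor
  · rintro ⟨x, hx, hh⟩
    rw [List.mem_map] at hx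
    obtain ⟨y, hy, rfl⟩ := hx
    simp only [List.getLast?_map, Option.map_eq_some_iff] at hh
    obtain ⟨z, hz, hzu⟩ := hh
    exact ⟨y, hy, by rw [hz, he hzu]⟩
  · rintro ⟨y, hy, hh⟩
    exact ⟨_, List.mem_map_of_mem hy, by simp only [List.getLast?_map, hh, Option.map_some]⟩

theorem isR_rev {V : Type} (S : List (V × List V)) (u : V) :
    IsR (S.map fun x => (x.1, x.2.reverse)) u ↔ IsL S u := by
  constructor
  · rintro ⟨x, hx, hh⟩
    rw [List.mem_map] at hx
    obtain ⟨y, hy, rfl⟩ := hx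
    simp only [List.getLast?_reverse] at hh
    exact ⟨y, hy, hh⟩
  · rintro ⟨y, hy, hh⟩
    exact ⟨_, List.mem_map_of_mem (f := fun x : V × List V => (x.1, x.2.reverse)) hy, by
      simp only [List.getLast?_reverse, hh]⟩

theorem inl_of {n : ℕ} (x : Fin n ⊕ Fin 3) (h0 : x ≠ Sum.inr 0) (h1 : x ≠ Sum.inr 1)
    (h2 : x ≠ Sum.inr 2) : ∃ v : Fin n, x = Sum.inl v := by
  rcases x with v | j
  · exact ⟨v, rfl⟩
  · exfalso
    fin_cases j
    · exact h0 rfl
    · exact h1 rfl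
    · exact h2 rfl

/-- at least `n + 1` steps -/
theorem len_ge (hCB : CbStmt) {n : ℕ} {S : List ((Fin n ⊕ Fin 3) × List (Fin n ⊕ Fin 3))}
    (h : Can (Sum.inr 0) (Sum.inr 1) [Sum.inr 0, Sum.inr 2, Sum.inr 1] S)
    (hv : ∀ v : Fin n, ∃ y ∈ S, y.1 = Sum.inl v) : n + 1 ≤ S.length := by
  classical
  obtain ⟨_, _, _, hC, hnd, _⟩ := hCB h
  set g : Option (Fin n) → Fin n ⊕ Fin 3 := fun o => o.elim (Sum.inr 2) Sum.inl with hg
  have hinj : Function.Injective g := by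
    intro o o' hoo
    cases o with
    | none =>
      cases o' with
      | none => rfl
      | some v => simp [hg] at hoo
    | some v =>
      cases o' with
      | none => simp [hg] at hoo
      | some w =>
        have h1 : (Sum.inl v : Fin n ⊕ Fin 3) = Sum.inl w := hoo
        rw [Sum.inl.inj h1]
  have hsub : Finset.univ.image g ⊆ (S.map Prod.fst).toFinset := by
    intro x hx
    rw [Finset.mem_image] at hx
    obtain ⟨o, _, rfl⟩ := hx
    rw [List.mem_toFinset, List.mem_map]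
    cases o with
    | none =>
      have h2 := hC (Sum.inr 2) (by simp)
      rcases h2 with h2 | h2 | h2
      · exact absurd (Sum.inr.inj h2) (by decide)
      · exact absurd (Sum.inr.inj h2) (by decide)
      · exact h2
    | some v => exact hv v
  calc n + 1 = (Finset.univ : Finset (Option (Fin n))).card := by
        rw [Finset.card_univ, Fintype.card_option, Fintype.card_fin]
    _ = (Finset.univ.image g).card := (Finset.card_image_of_injective _ hinj).symm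
    _ ≤ (S.map Prod.fst).toFinset.card := Finset.card_le_card hsub
    _ ≤ (S.map Prod.fst).length := List.toFinset_card_le _
    _ = S.length := by rw [List.length_map]

theorem pigeon {n k L F₁ F₂ F₃ : ℕ} (h : L + 1 ≤ 2 * (F₁ + F₂ + F₃)) (hl : n + 1 ≤ L)
    (hk : 6 * k ≤ n + 7) : k ≤ F₁ ∨ k ≤ F₂ ∨ k ≤ F₃ := by
  omega

theorem dec {p : Prop} {i : Decidable p} (h : @decide p i = true) : p :=
  @of_decide_eq_true p i h

/-- Row SEL -/
theorem sel (hGEO : GeoStmt) (hCB : CbStmt) (hMIR : MirStmt) (hMAP : MapStmt) (hROT : RotStmt)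
    (hCO3 : Co3Stmt) : SelStmt := by
  classical
  intro n k hkn hk G hG
  obtain ⟨S₀, hR, hv, he⟩ := hGEO G hG
  have hc := hR.can
  obtain ⟨_, _, _, hC, hnd, hst⟩ := hCB hc
  have hsi : Function.Injective (some : Fin n ⊕ Fin 3 → W n) := Option.some_injective _
  have hS : Can (some (Sum.inr 0) : W n) (some (Sum.inr 1))
      ([Sum.inr 0, Sum.inr 2, Sum.inr 1].map some)
      (S₀.map fun y => ((some y.1 : W n), y.2.map some)) := hMAP some hsi hc
  set S : List (W n × List (W n)) := S₀.map fun y => ((some y.1 : W n), y.2.map some) with hSdef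
  have hmem : ∀ (x : Fin n ⊕ Fin 3) (ℓ : List (Fin n ⊕ Fin 3)), (x, ℓ) ∈ S₀ →
      ((some x : W n), ℓ.map some) ∈ S := by
    intro x ℓ hx
    rw [hSdef, List.mem_map]
    exact ⟨(x, ℓ), hx, rfl⟩
  have hω : ∀ x ∈ S, x.1 ≠ (none : W n) := by
    intro x hx
    rw [hSdef, List.mem_map] at hx
    obtain ⟨y, _, rfl⟩ := hx
    exact Option.some_ne_none _
  have hvS : ∀ v : Fin n, ∃ ℓ, (ev v, ℓ) ∈ S := by
    intro v
    obtain ⟨⟨x, ℓ⟩, hy, h1⟩ := hv v
    have h2 := hmem x ℓ hy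
    have h3 : x = Sum.inl v := h1
    rw [h3] at h2
    exact ⟨_, h2⟩
  have hadj : ∀ u w : Fin n, (∃ y ∈ S₀, y.1 = Sum.inl u ∧ Sum.inl w ∈ y.2) →
      ∃ ℓ, (ev u, ℓ) ∈ S ∧ ev w ∈ ℓ := by
    rintro u w ⟨⟨x, ℓ⟩, hy, h1, h2⟩
    have h3 := hmem x ℓ hy
    have h4 : x = Sum.inl u := h1
    rw [h4] at h3
    exact ⟨_, h3, List.mem_map_of_mem h2⟩
  have heS : ∀ u w : Fin n, G.Adj u w →
      (∃ ℓ, (ev u, ℓ) ∈ S ∧ ev w ∈ ℓ) ∨ ∃ ℓ, (ev w, ℓ) ∈ S ∧ ev u ∈ ℓ := by
    intro u w huw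
    rcases he u w huw with h1 | h1
    · exact Or.inl (hadj u w h1)
    · exact Or.inr (hadj w u h1)
  by_cases hk0 : k = 0
  · refine ⟨_, _, _, S, hS, hvS, heS, ∅, ?_, ?_⟩
    · rw [Finset.card_empty, hk0]
    · intro u hu
      exact absurd hu (Finset.notMem_empty u)
  · have hlen := len_ge hCB hc hv
    have h3 := hCO3 hR (by omega)
    rcases pigeon h3 hlen hk with h4 | h4 | h4
    · obtain ⟨A, hA, hAu⟩ := count S₀ hnd _ (by
        intro y hy hpy
        have hpy' := dec hpy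
        exact inl_of y.1 (hst y hy).1 (hst y hy).2.1 hpy'.1) h4
      refine ⟨_, _, _, S, hS, hvS, heS, A, hA, ?_⟩
      intro u hu
      obtain ⟨ℓ, h5, h6⟩ := hAu u hu
      have h6' := dec h6
      refine ⟨hvS u, ?_, ?_⟩
      · intro h7
        exact h6'.2.1 ((isL_map some hsi S₀ (Sum.inl u)).1 h7)
      · intro h7
        exact h6'.2.2 ((isR_map some hsi S₀ (Sum.inl u)).1 h7)
    · obtain ⟨A, hA, hAu⟩ := count S₀ hnd _ (by
        intro y hy hpy
        have hpy' := dec hpy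
        exact inl_of y.1 (hst y hy).1 (hst y hy).2.1 hpy'.1) h4
      obtain ⟨a', b', C', S', g1, g2, g3, g4⟩ := fin2 hCB hROT G hS
        (Option.some_ne_none _).symm (Option.some_ne_none _).symm hω hvS heS A (by
          intro u hu
          obtain ⟨ℓ, h5, h6⟩ := hAu u hu
          have h6' := dec h6
          refine ⟨ℓ.map some, hmem _ ℓ h5, ?_, ?_⟩
          · intro h7
            exact h6'.2.1 ((isR_map some hsi S₀ (Sum.inl u)).1 h7)
          · rw [List.length_map]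
            exact h6'.2.2)
      exact ⟨a', b', C', S', g1, g2, g3, A, hA, g4⟩
    · obtain ⟨A, hA, hAu⟩ := count S₀ hnd _ (by
        intro y hy hpy
        have hpy' := dec hpy
        exact inl_of y.1 (hst y hy).1 (hst y hy).2.1 hpy'.1) h4
      have hM := hMIR hS
      have hmemM : ∀ (x : W n) (ℓ : List (W n)), (x, ℓ) ∈ S →
          (x, ℓ.reverse) ∈ S.map fun x => (x.1, x.2.reverse) := by
        intro x ℓ hx
        rw [List.mem_map]
        exact ⟨(x, ℓ), hx, rfl⟩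
      obtain ⟨a', b', C', S', g1, g2, g3, g4⟩ := fin2 hCB hROT G hM
        (Option.some_ne_none _).symm (Option.some_ne_none _).symm
        (by
          intro x hx
          rw [List.mem_map] at hx
          obtain ⟨y, hy, rfl⟩ := hx
          exact hω y hy)
        (by
          intro v
          obtain ⟨ℓ, h5⟩ := hvS v
          exact ⟨_, hmemM _ _ h5⟩)
        (by
          intro u w huw
          rcases heS u w huw with ⟨ℓ, h5, h6⟩ | ⟨ℓ, h5, h6⟩
          · exact Or.inl ⟨_, hmemM _ _ h5, List.mem_reverse.2 h6⟩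
          · exact Or.inr ⟨_, hmemM _ _ h5, List.mem_reverse.2 h6⟩)
        A (by
          intro u hu
          obtain ⟨ℓ, h5, h6⟩ := hAu u hu
          have h6' := dec h6
          refine ⟨(ℓ.map some).reverse, hmemM _ _ (hmem _ ℓ h5), ?_, ?_⟩
          · intro h7
            exact h6'.2.1 ((isL_map some hsi S₀ (Sum.inl u)).1 ((isR_rev S (ev u)).1 h7))
          · rw [List.length_reverse, List.length_map]
            exact h6'.2.2)
      exact ⟨a', b', C', S', g1, g2, g3, A, hA, g4⟩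

end Pool.Agent.SGK.H61
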